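import Mathlib
import Pool.Agent.H27.RC.Stmts

/-!
Module BLK of the project RC (MP_c00d13_an): block operators.
-/

open scoped ENNReal NNReal InnerProductSpace ComplexOrder
open Filter Topology
open Pool.Agent.H27.RC

noncomputable section

namespace Pool.Agent.H30.RC

section basics

variable {ℓ n : ℕ}

theorem del_apply (p q : ℤ × Fin n) : (del q : Hil n) p = if p = q then (1 : ℂ) else 0 := by
  unfold del
  rw [lp.single_apply, Pi.single_apply]

theorem inner_del (q : ℤ × Fin n) (f : Hil n) : ⟪del q, f⟫_ℂ = f q := by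
  unfold del
  rw [lp.inner_single_left]
  simp

theorem ext_inner_del {f g : Hil n} (H : ∀ q, ⟪del q, f⟫_ℂ = ⟪del q, g⟫_ℂ) : f = g := by
  apply lp.ext
  funext q
  have := H q
  rw [inner_del, inner_del] at this
  exact this

/-- cut a vector to a finite set of coordinates -/
def trunc (A : Finset (ℤ × Fin n)) (f : Hil n) : Hil n := ∑ q ∈ A, f q • del q

theorem tendsto_trunc (f : Hil n) : Tendsto (fun A => trunc A f) atTop (𝓝 f) := by
  have h1 := lp.hasSum_single (p := 2) (by simp) f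
  have h2 : (fun A : Finset (ℤ × Fin n) => trunc A f) =
      fun A => ∑ i ∈ A, lp.single 2 i (f i) := by
    funext A
    unfold trunc del
    refine Finset.sum_congr rfl fun q _ => ?_
    rw [← lp.single_smul]
    simp
  rw [h2]
  exact h1

theorem ext_clm {S T : Hil n →L[ℂ] Hil n} (H : ∀ q, S (del q) = T (del q)) : S = T := by
  ext1 f
  have h1 : Tendsto (fun A => S (trunc A f)) atTop (𝓝 (S f)) :=
    (S.continuous.tendsto f).comp (tendsto_trunc f)
  have h2 : Tendsto (fun A => T (trunc A f)) atTop (𝓝 (T f)) :=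
    (T.continuous.tendsto f).comp (tendsto_trunc f)
  have h3 : (fun A => S (trunc A f)) = fun A => T (trunc A f) := by
    funext A
    unfold trunc
    rw [map_sum, map_sum]
    refine Finset.sum_congr rfl fun q _ => ?_
    rw [map_smul, map_smul, H]
  rw [h3] at h1
  exact tendsto_nhds_unique h1 h2

theorem place_apply (M : ℕ) (m : ℤ) (u : EE ℓ n) :
    place M m u = ∑ p ∈ Finset.univ.filter
      (fun p : Fin ℓ × Fin n => M ≤ (p.1 : ℕ) ∧ (p.1 : ℕ) + M < ℓ),
      u p • (del (m + ((p.1 : ℕ) : ℤ), p.2) : Hil n) := by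
  unfold place
  rw [sum_apply]
  rfl

theorem place_coord (M : ℕ) (m : ℤ) (u : EE ℓ n) (i : Fin ℓ) (e : Fin n) :
    (place M m u) (m + ((i : ℕ) : ℤ), e) =
      if M ≤ (i : ℕ) ∧ (i : ℕ) + M < ℓ then u (i, e) else 0 := by
  rw [place_apply, lp.coeFn_sum, Finset.sum_apply]
  simp only [lp.coeFn_smul, Pi.smul_apply, del_apply, smul_eq_mul]
  rw [Finset.sum_filter]
  rw [Finset.sum_eq_single (i, e)]
  · simp
  · intro p _ hp
    split_ifs with h1 h2
    · exfalso
      apply hp
      have h3 := congrArg Prod.fst h2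
      have h4 := congrArg Prod.snd h2
      simp only at h3 h4
      apply Prod.ext
      · apply Fin.ext
        simp only
        omega
      · exact h4.symm
    · simp
    · rfl
  · intro hp
    exact absurd (Finset.mem_univ _) hp

theorem place_coord_out (M : ℕ) (m : ℤ) (u : EE ℓ n) (q : ℤ × Fin n)
    (hq : ¬ (m ≤ q.1 ∧ q.1 < m + ℓ)) : (place M m u) q = 0 := by
  rw [place_apply, lp.coeFn_sum, Finset.sum_apply]
  simp only [lp.coeFn_smul, Pi.smul_apply, del_apply, smul_eq_mul]
  refine Finset.sum_eq_zero fun p _ => ?_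
  rw [if_neg, mul_zero]
  intro h1
  apply hq
  rw [h1]
  simp only
  have := p.1.2
  omega

theorem exists_idx {m : ℤ} {q : ℤ × Fin n} (hq : m ≤ q.1 ∧ q.1 < m + ℓ) :
    ∃ i : Fin ℓ, q = (m + ((i : ℕ) : ℤ), q.2) := by
  refine ⟨⟨(q.1 - m).toNat, by omega⟩, ?_⟩
  apply Prod.ext
  · simp only
    omega
  · rfl

theorem place_single (m : ℤ) (i : Fin ℓ) (e : Fin n) :
    place 0 m (EuclideanSpace.single (i, e) (1 : ℂ)) = (del (m + ((i : ℕ) : ℤ), e) : Hil n) := by
  rw [place_apply]
  rw [Finset.sum_eq_single (i, e)]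
  · simp
  · intro p _ hp
    rw [PiLp.single_apply, if_neg hp, zero_smul]
  · intro hp
    exfalso
    apply hp
    simp

theorem adj_coord (M : ℕ) (m : ℤ) (f : Hil n) (i : Fin ℓ) (e : Fin n) :
    (ContinuousLinearMap.adjoint (place (ℓ := ℓ) M m) f) (i, e) =
      if M ≤ (i : ℕ) ∧ (i : ℕ) + M < ℓ then f (m + ((i : ℕ) : ℤ), e) else 0 := by
  have h1 : (ContinuousLinearMap.adjoint (place (ℓ := ℓ) M m) f) (i, e) =
      ⟪EuclideanSpace.single (i, e) (1 : ℂ), ContinuousLinearMap.adjoint (place M m) f⟫_ℂ := by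
    rw [EuclideanSpace.inner_single_left]
    simp
  rw [h1, ContinuousLinearMap.adjoint_inner_right]
  have h2 : place M m (EuclideanSpace.single (i, e) (1 : ℂ)) =
      if M ≤ (i : ℕ) ∧ (i : ℕ) + M < ℓ then (del (m + ((i : ℕ) : ℤ), e) : Hil n) else 0 := by
    rw [place_apply, Finset.sum_filter]
    rw [Finset.sum_eq_single (i, e)]
    · simp
    · intro p _ hp
      rw [PiLp.single_apply, if_neg hp, zero_smul, ite_self]
    · intro hp
      exact absurd (Finset.mem_univ _) hp
  rw [h2]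
  split_ifs
  · rw [inner_del]
  · simp

theorem adj_place_self (m : ℤ) (u : EE ℓ n) :
    ContinuousLinearMap.adjoint (place 0 m) (place 0 m u) = u := by
  ext p
  obtain ⟨i, e⟩ := p
  rw [adj_coord, place_coord]
  simp

theorem adj_place_ne {m m' : ℤ} (hm : (ℓ : ℤ) ≤ |m - m'|) (u : EE ℓ n) :
    ContinuousLinearMap.adjoint (place (ℓ := ℓ) 0 m) (place 0 m' u) = 0 := by
  ext p
  obtain ⟨i, e⟩ := p
  rw [adj_coord, place_coord_out]
  · simp
  · simp only
    have := i.2
    rcases abs_cases (m - m') with ⟨h1, h2⟩ | ⟨h1, h2⟩ <;> omega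

theorem place_lev (M : ℕ) (m : ℤ) (u : EE ℓ n) : place 0 m (lev ℓ n M u) = place M m u := by
  apply lp.ext
  funext q
  by_cases hq : m ≤ q.1 ∧ q.1 < m + ℓ
  · obtain ⟨i, hi⟩ := exists_idx hq
    rw [hi, place_coord, place_coord]
    unfold lev
    rw [ContinuousLinearMap.comp_apply, adj_coord, place_coord]
    by_cases hM : M ≤ (i : ℕ) ∧ (i : ℕ) + M < ℓ
    · rw [if_pos (by simp), if_pos hM, if_pos hM]
    · rw [if_pos (by simp), if_neg hM, if_neg hM]
  · rw [place_coord_out _ _ _ _ hq, place_coord_out _ _ _ _ hq]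

theorem lev_adj (M : ℕ) (m : ℤ) (f : Hil n) :
    lev ℓ n M (ContinuousLinearMap.adjoint (place 0 m) f) =
      ContinuousLinearMap.adjoint (place M m) f := by
  ext p
  obtain ⟨i, e⟩ := p
  unfold lev
  rw [ContinuousLinearMap.comp_apply, adj_coord, adj_coord, place_coord, adj_coord]
  by_cases hM : M ≤ (i : ℕ) ∧ (i : ℕ) + M < ℓ
  · rw [if_pos hM, if_pos hM, if_pos (by simp), if_pos hM]
  · rw [if_neg hM, if_neg hM]

/-- a vector supported in the window is in the range of `place` -/
theorem place_adj {m : ℤ} {f : Hil n} (hf : ∀ q, ¬ (m ≤ q.1 ∧ q.1 < m + (ℓ : ℤ)) → f q = 0) :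
    place 0 m (ContinuousLinearMap.adjoint (place (ℓ := ℓ) 0 m) f) = f := by
  apply lp.ext
  funext q
  by_cases hq : m ≤ q.1 ∧ q.1 < m + ℓ
  · obtain ⟨i, hi⟩ := exists_idx hq
    rw [hi, place_coord, adj_coord]
    simp
  · rw [place_coord_out _ _ _ _ hq, hf q hq]

end basics

section blk

variable {ℓ n : ℕ}

/-- `S` is the block operator with blocks `F m` at the active bases `m ∈ Act`. -/
structure Blk (Act : Set ℤ) (S : Hil n →L[ℂ] Hil n) (F : ℤ → (EE ℓ n →L[ℂ] EE ℓ n)) : Prop where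
  on : ∀ m ∈ Act, ∀ u, S (place 0 m u) = place 0 m (F m u)
  off : ∀ q : ℤ × Fin n, (∀ m ∈ Act, ¬ (m ≤ q.1 ∧ q.1 < m + (ℓ : ℤ))) → S (del q) = 0

/-- the bases are `ℓ`-separated -/
def Sep (ℓ : ℕ) (Act : Set ℤ) : Prop := ∀ m ∈ Act, ∀ m' ∈ Act, m ≠ m' → (ℓ : ℤ) ≤ |m - m'|

variable {Act : Set ℤ} {S S' : Hil n →L[ℂ] Hil n} {F F' : ℤ → (EE ℓ n →L[ℂ] EE ℓ n)}

theorem cases_q (Act : Set ℤ) (ℓ : ℕ) (q : ℤ × Fin n) :
    (∃ m ∈ Act, ∃ i : Fin ℓ, q = (m + ((i : ℕ) : ℤ), q.2)) ∨
      (∀ m ∈ Act, ¬ (m ≤ q.1 ∧ q.1 < m + (ℓ : ℤ))) := by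
  by_cases H : ∃ m ∈ Act, m ≤ q.1 ∧ q.1 < m + (ℓ : ℤ)
  · obtain ⟨m, hm, hq⟩ := H
    exact Or.inl ⟨m, hm, exists_idx hq⟩
  · right
    intro m hm hq
    exact H ⟨m, hm, hq⟩

theorem Blk.unique (h1 : Blk Act S F) (h2 : Blk Act S' F') (hF : ∀ m ∈ Act, F m = F' m) :
    S = S' := by
  apply ext_clm
  intro q
  rcases cases_q Act ℓ q with ⟨m, hm, i, hi⟩ | H
  · rw [hi, ← place_single, h1.on m hm, h2.on m hm, hF m hm]
  · rw [h1.off q H, h2.off q H]

theorem Blk.add (h1 : Blk Act S F) (h2 : Blk Act S' F') :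
    Blk Act (S + S') (fun m => F m + F' m) where
  on m hm u := by
    simp only [add_apply, h1.on m hm, h2.on m hm, map_add]
  off q H := by
    simp only [add_apply, h1.off q H, h2.off q H, add_zero]

theorem Blk.smul (h1 : Blk Act S F) (c : ℝ) :
    Blk Act (c • S) (fun m => c • F m) where
  on m hm u := by
    have h2 : ∀ (T : Hil n →L[ℂ] Hil n) v, (c • T) v = (c : ℂ) • T v := fun T v => rfl
    have h3 : ∀ (T : EE ℓ n →L[ℂ] EE ℓ n) v, (c • T) v = (c : ℂ) • T v := fun T v => rfl
    rw [h2, h3, h1.on m hm, map_smul]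
  off q H := by
    rw [smul_apply, h1.off q H, smul_zero]

theorem Blk.mul (h1 : Blk Act S F) (h2 : Blk Act S' F') :
    Blk Act (S * S') (fun m => F m * F' m) where
  on m hm u := by
    simp only [mul_apply_eq_comp, h2.on m hm, h1.on m hm]
  off q H := by
    simp only [mul_apply_eq_comp, h2.off q H, map_zero]

theorem Blk.star (hs : Sep ℓ Act) (h1 : Blk Act S F) :
    Blk Act (star S) (fun m => star (F m)) where
  on m hm u := by
    apply ext_inner_del
    intro q
    rw [ContinuousLinearMap.star_eq_adjoint, ContinuousLinearMap.star_eq_adjoint,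
      ContinuousLinearMap.adjoint_inner_right]
    rcases cases_q Act ℓ q with ⟨m', hm', i, hi⟩ | H
    · rw [hi, ← place_single, h1.on m' hm', ← ContinuousLinearMap.adjoint_inner_right]
      conv_rhs => rw [← ContinuousLinearMap.adjoint_inner_right]
      by_cases hmm : m' = m
      · subst hmm
        rw [adj_place_self, adj_place_self, ContinuousLinearMap.adjoint_inner_right]
      · rw [adj_place_ne (hs m' hm' m hm hmm), adj_place_ne (hs m' hm' m hm hmm)]
        simp
    · rw [h1.off q H, inner_zero_left, inner_del, place_coord_out _ _ _ _ (H m hm)]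
  off q H := by
    apply ext_inner_del
    intro p
    rw [ContinuousLinearMap.star_eq_adjoint, ContinuousLinearMap.adjoint_inner_right,
      inner_zero_right]
    rcases cases_q Act ℓ p with ⟨m', hm', i, hi⟩ | H'
    · rw [hi, ← place_single, h1.on m' hm', ← inner_conj_symm, inner_del,
        place_coord_out _ _ _ _ (H m' hm'), map_zero]
    · rw [h1.off p H', inner_zero_left]

/-- the active bases whose window meets `A` -/
def actFin (Act : Set ℤ) (ℓ : ℕ) (A : Finset (ℤ × Fin n)) : Finset ℤ :=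
  letI := Classical.decPred (fun m => m ∈ Act)
  (A.biUnion fun q => Finset.Ioc (q.1 - ℓ) q.1).filter (fun m => m ∈ Act)

theorem actFin_sub {A : Finset (ℤ × Fin n)} {m : ℤ} (hm : m ∈ actFin Act ℓ A) : m ∈ Act := by
  unfold actFin at hm
  classical
  rw [Finset.mem_filter] at hm
  exact hm.2

theorem mem_actFin {A : Finset (ℤ × Fin n)} {m : ℤ} {q : ℤ × Fin n} (hq : q ∈ A) (hm : m ∈ Act)
    (h1 : m ≤ q.1 ∧ q.1 < m + (ℓ : ℤ)) : m ∈ actFin Act ℓ A := by
  unfold actFin
  classical
  rw [Finset.mem_filter]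
  refine ⟨?_, hm⟩
  rw [Finset.mem_biUnion]
  refine ⟨q, hq, ?_⟩
  rw [Finset.mem_Ioc]
  omega

theorem adj_del_out {m : ℤ} {q : ℤ × Fin n} (hq : ¬ (m ≤ q.1 ∧ q.1 < m + (ℓ : ℤ))) :
    ContinuousLinearMap.adjoint (place (ℓ := ℓ) 0 m) (del q) = 0 := by
  ext p
  obtain ⟨i, e⟩ := p
  rw [adj_coord, del_apply, if_neg (c := (m + ((i : ℕ) : ℤ), e) = q), ite_self]
  · rfl
  · intro h1
    apply hq
    rw [← h1]
    simp only
    have := i.2
    omega

theorem Blk.expand_del (hs : Sep ℓ Act) (h1 : Blk Act S F) {A : Finset (ℤ × Fin n)}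
    {q : ℤ × Fin n} (hq : q ∈ A) :
    S (del q) = ∑ m ∈ actFin Act ℓ A,
      place 0 m (F m (ContinuousLinearMap.adjoint (place 0 m) (del q))) := by
  rcases cases_q Act ℓ q with ⟨m, hm, i, hi⟩ | H
  · have hw : m ≤ q.1 ∧ q.1 < m + (ℓ : ℤ) := by
      rw [hi]
      simp only
      have := i.2
      omega
    rw [Finset.sum_eq_single m]
    · rw [hi, ← place_single, h1.on m hm, adj_place_self]
    · intro m' hm' hne
      rw [hi, ← place_single, adj_place_ne (hs m' (actFin_sub hm') m hm hne), map_zero, map_zero]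
    · intro h2
      exact absurd (mem_actFin hq hm hw) h2
  · rw [h1.off q H]
    symm
    refine Finset.sum_eq_zero fun m hm => ?_
    rw [adj_del_out (H m (actFin_sub hm)), map_zero, map_zero]

theorem Blk.expand (hs : Sep ℓ Act) (h1 : Blk Act S F) (A : Finset (ℤ × Fin n))
    {B : Finset (ℤ × Fin n)} (hB : B ⊆ A) (f : Hil n) :
    S (trunc B f) = ∑ m ∈ actFin Act ℓ A,
      place 0 m (F m (ContinuousLinearMap.adjoint (place 0 m) (trunc B f))) := by
  unfold trunc
  simp only [map_sum, map_smul]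
  rw [Finset.sum_comm]
  refine Finset.sum_congr rfl fun q hq => ?_
  rw [h1.expand_del hs (hB hq), Finset.smul_sum]

theorem Blk.inner_expand (hs : Sep ℓ Act) (h1 : Blk Act S F) (A : Finset (ℤ × Fin n))
    (g f : Hil n) :
    ⟪g, S (trunc A f)⟫_ℂ = ∑ m ∈ actFin Act ℓ A,
      ⟪ContinuousLinearMap.adjoint (place 0 m) g,
        F m (ContinuousLinearMap.adjoint (place 0 m) (trunc A f))⟫_ℂ := by
  rw [h1.expand hs A (Finset.Subset.refl A), inner_sum]
  refine Finset.sum_congr rfl fun m _ => ?_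
  rw [ContinuousLinearMap.adjoint_inner_left]

/-- Bessel inequality -/
theorem bessel (hs : Sep ℓ Act) (A : Finset ℤ) (hA : ∀ m ∈ A, m ∈ Act) (f : Hil n) :
    ∑ m ∈ A, ‖ContinuousLinearMap.adjoint (place (ℓ := ℓ) 0 m) f‖ ^ 2 ≤ ‖f‖ ^ 2 := by
  set g : Hil n := ∑ m ∈ A, place 0 m (ContinuousLinearMap.adjoint (place (ℓ := ℓ) 0 m) f) with hg
  have h1 : ⟪f, g⟫_ℂ = ((∑ m ∈ A, ‖ContinuousLinearMap.adjoint (place (ℓ := ℓ) 0 m) f‖ ^ 2 : ℝ) : ℂ) := by
    rw [hg, inner_sum]
    push_cast
    refine Finset.sum_congr rfl fun m _ => ?_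
    rw [← ContinuousLinearMap.adjoint_inner_left, inner_self_eq_norm_sq_to_K]
    rfl
  have h2 : ⟪g, g⟫_ℂ = ((∑ m ∈ A, ‖ContinuousLinearMap.adjoint (place (ℓ := ℓ) 0 m) f‖ ^ 2 : ℝ) : ℂ) := by
    conv_lhs => rw [hg]
    rw [sum_inner]
    push_cast
    refine Finset.sum_congr rfl fun m hm => ?_
    rw [← ContinuousLinearMap.adjoint_inner_right, map_sum]
    rw [Finset.sum_eq_single m]
    · rw [adj_place_self, inner_self_eq_norm_sq_to_K]
      rfl
    · intro m' hm' hne
      exact adj_place_ne (hs m (hA m hm) m' (hA m' hm') hne.symm) _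
    · intro h3
      exact absurd hm h3
  have h3 : 0 ≤ ‖f - g‖ ^ 2 := by positivity
  rw [@norm_sub_sq ℂ] at h3
  rw [h1] at h3
  have h4 : ‖g‖ ^ 2 = ∑ m ∈ A, ‖ContinuousLinearMap.adjoint (place (ℓ := ℓ) 0 m) f‖ ^ 2 := by
    have h5 := inner_self_eq_norm_sq_to_K (𝕜 := ℂ) g
    rw [h2] at h5
    have h6 := congrArg Complex.re h5
    rw [Complex.ofReal_re] at h6
    rw [h6]
    norm_cast
  rw [h4] at h3
  simp only [RCLike.re_to_complex, Complex.ofReal_re] at h3
  linarith

end blk

section main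

variable {X : Type} [TopologicalSpace X]

theorem zpow_app (h : X ≃ₜ X) (a b : ℤ) (x : X) : (h ^ a) ((h ^ b) x) = (h ^ (a + b)) x := by
  rw [zpow_add]
  rfl

/-- the coefficients of the block operator -/
def coef (h : X ≃ₜ X) {ℓ n : ℕ} (V : X → (EE ℓ n →L[ℂ] EE ℓ n)) (k : ℤ) (x : X) :
    Matrix (Fin n) (Fin n) ℂ :=
  Matrix.of fun e f => ∑ i : Fin ℓ, ∑ j : Fin ℓ, if ((i : ℕ) : ℤ) - ((j : ℕ) : ℤ) = k then
    (V ((h ^ (-((i : ℕ) : ℤ))) x) (EuclideanSpace.single (j, f) (1 : ℂ))) (i, e) else 0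

theorem continuous_coef (h : X ≃ₜ X) {ℓ n : ℕ} {V : X → (EE ℓ n →L[ℂ] EE ℓ n)}
    (hV : Continuous V) (k : ℤ) : Continuous (coef h V k) := by
  refine continuous_matrix fun e f => ?_
  unfold coef
  simp only [Matrix.of_apply]
  refine continuous_finsetSum _ fun i _ => continuous_finsetSum _ fun j _ => ?_
  split_ifs
  · have h1 : Continuous fun x => V ((h ^ (-((i : ℕ) : ℤ))) x) :=
      hV.comp (h ^ (-((i : ℕ) : ℤ))).continuous
    have h2 : Continuous fun x => V ((h ^ (-((i : ℕ) : ℤ))) x)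
      (EuclideanSpace.single (j, f) (1 : ℂ)) := h1.clm_apply continuous_const
    exact (EuclideanSpace.proj (i, e)).continuous.comp h2
  · exact continuous_const

variable {h : X ≃ₜ X} {ℓ n : ℕ} {𝒜 : Type} [CStarAlgebra 𝒜] (M : Model h n 𝒜)

open Classical in
/-- the block operator -/
def TB (ℓ : ℕ) (V : X → (EE ℓ n →L[ℂ] EE ℓ n)) : 𝒜 :=
  if hV : Continuous V then (M.band ℓ (coef h V) (continuous_coef h hV)).choose else 0

theorem TB_entry {V : X → (EE ℓ n →L[ℂ] EE ℓ n)} (hV : Continuous V) (y : X)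
    (p q : ℤ × Fin n) :
    entry (M.fib y (TB M ℓ V)) p q = ∑ i : Fin ℓ, ∑ j : Fin ℓ,
      if ((i : ℕ) : ℤ) - ((j : ℕ) : ℤ) = p.1 - q.1 then
        (V ((h ^ (p.1 - ((i : ℕ) : ℤ))) y) (EuclideanSpace.single (j, q.2) (1 : ℂ))) (i, p.2)
      else 0 := by
  unfold TB
  rw [dif_pos hV]
  rw [(M.band ℓ (coef h V) (continuous_coef h hV)).choose_spec.2 y p q]
  unfold coef
  simp only [Matrix.of_apply, zpow_app]
  split_ifs with h1
  · refine Finset.sum_congr rfl fun i _ => Finset.sum_congr rfl fun j _ => ?_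
    rw [neg_add_eq_sub]
  · symm
    refine Finset.sum_eq_zero fun i _ => Finset.sum_eq_zero fun j _ => ?_
    rw [if_neg]
    intro h2
    apply h1
    rw [← h2]
    have := i.2
    have := j.2
    rw [abs_le]
    omega

/-- active bases over `y` -/
def act (h : X ≃ₜ X) (β : X → ℝ) (y : X) : Set ℤ := {m | β ((h ^ m) y) ≠ 0}

theorem sep_act {β : X → ℝ}
    (hβ : ∀ (x : X) (i : ℤ), i ≠ 0 → |i| < (ℓ : ℤ) → β x = 0 ∨ β ((h ^ i) x) = 0) (y : X) :
    Sep ℓ (act h β y) := by
  intro m hm m' hm' hne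
  by_contra H
  rw [not_le] at H
  rcases hβ ((h ^ m') y) (m - m') (sub_ne_zero.2 hne) H with h1 | h1
  · exact hm' h1
  · rw [zpow_app, sub_add_cancel] at h1
    exact hm h1

theorem blk_TB {β : X → ℝ}
    (hβ : ∀ (x : X) (i : ℤ), i ≠ 0 → |i| < (ℓ : ℤ) → β x = 0 ∨ β ((h ^ i) x) = 0)
    {V : X → (EE ℓ n →L[ℂ] EE ℓ n)} (hV : Adm β V) (y : X) :
    Blk (act h β y) (M.fib y (TB M ℓ V)) (fun m => V ((h ^ m) y)) where
  on m hm u := by
    have key : (M.fib y (TB M ℓ V)) ∘L (place 0 m) = (place 0 m) ∘L (V ((h ^ m) y)) := by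
      apply ContinuousLinearMap.coe_injective
      refine (EuclideanSpace.basisFun (Fin ℓ × Fin n) ℂ).toBasis.ext fun jf => ?_
      obtain ⟨j, f⟩ := jf
      simp only [OrthonormalBasis.coe_toBasis, EuclideanSpace.basisFun_apply,
        ContinuousLinearMap.coe_coe, ContinuousLinearMap.comp_apply]
      rw [place_single]
      apply lp.ext
      funext p
      have h1 := TB_entry M hV.1 y p (m + ((j : ℕ) : ℤ), f)
      unfold entry at h1
      rw [h1]
      have h0 : ∀ i' j' : Fin ℓ, ((i' : ℕ) : ℤ) - ((j' : ℕ) : ℤ) = p.1 - (m + ((j : ℕ) : ℤ)) →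
          p.1 - ((i' : ℕ) : ℤ) ≠ m → V ((h ^ (p.1 - ((i' : ℕ) : ℤ))) y) = 0 := by
        intro i' j' hij hne
        apply hV.2
        by_contra hb
        have h2 := sep_act hβ y _ hb _ hm hne
        have := i'.2
        have := j'.2
        have := j.2
        rcases abs_cases (p.1 - ((i' : ℕ) : ℤ) - m) with ⟨h3, h4⟩ | ⟨h3, h4⟩ <;> omega
      by_cases hp : m ≤ p.1 ∧ p.1 < m + ℓ
      · obtain ⟨i, hi⟩ := exists_idx hp
        have hi1 : p.1 = m + ((i : ℕ) : ℤ) := by
          rw [hi]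
        rw [Finset.sum_eq_single i]
        · rw [Finset.sum_eq_single j]
          · rw [if_pos (by simp only; omega)]
            conv_rhs => rw [hi, place_coord]
            rw [if_pos (by simp)]
            have h3 : p.1 - ((i : ℕ) : ℤ) = m := by omega
            rw [h3]
          · intro j' _ hj'
            rw [if_neg]
            intro h3
            simp only at h3
            apply hj'
            apply Fin.ext
            omega
          · intro h3
            exact absurd (Finset.mem_univ _) h3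
        · intro i' _ hi'
          refine Finset.sum_eq_zero fun j' _ => ?_
          split_ifs with h3
          · rw [h0 i' j' h3]
            · rfl
            · intro h4
              apply hi'
              apply Fin.ext
              omega
          · rfl
        · intro h3
          exact absurd (Finset.mem_univ _) h3
      · rw [place_coord_out _ _ _ _ hp]
        refine Finset.sum_eq_zero fun i' _ => Finset.sum_eq_zero fun j' _ => ?_
        split_ifs with h3
        · rw [h0 i' j' h3]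
          · rfl
          · intro h4
            apply hp
            have := i'.2
            omega
        · rfl
    have := congrArg (fun T => T u) key
    simpa using this
  off q H := by
    apply lp.ext
    funext p
    have h1 := TB_entry M hV.1 y p q
    unfold entry at h1
    rw [h1]
    refine Finset.sum_eq_zero fun i' _ => Finset.sum_eq_zero fun j' _ => ?_
    split_ifs with h3
    · rw [hV.2]
      · rfl
      · by_contra hb
        apply H _ hb
        have := i'.2
        have := j'.2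
        omega
    · rfl

omit [TopologicalSpace X] in
theorem eq_of_fib [TopologicalSpace X] {h : X ≃ₜ X} (M : Model h n 𝒜) {S T : 𝒜}
    (H : ∀ y, M.fib y S = M.fib y T) : S = T := by
  have h1 := M.inj (S - T) fun y => by rw [map_sub, H y, sub_self]
  exact sub_eq_zero.1 h1

theorem fib_smul (M : Model h n 𝒜) (y : X) (c : ℝ) (T : 𝒜) :
    M.fib y (c • T) = c • M.fib y T := by
  have h1 : c • T = (c : ℂ) • T := (Complex.coe_smul c T).symm
  have h2 : c • M.fib y T = (c : ℂ) • M.fib y T := (Complex.coe_smul c (M.fib y T)).symm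
  rw [h1, h2, map_smul]

/-- the compression of a band element to a window -/
theorem win_cov (M : Model h n 𝒜)
    (hcov : ∀ (T : 𝒜) (k : ℤ) (x : X) (p q : ℤ × Fin n),
      entry (M.fib ((h ^ k) x) T) p q = entry (M.fib x T) (p.1 + k, p.2) (q.1 + k, q.2))
    (T : 𝒜) (M₀ : ℕ) (m : ℤ) (y : X) (w : EE ℓ n) :
    ContinuousLinearMap.adjoint (place M₀ m) (M.fib y T (place M₀ m w)) =
      win ℓ M₀ (M.fib ((h ^ m) y) T) w := by
  ext p
  obtain ⟨i, e⟩ := p
  unfold win
  simp only [ContinuousLinearMap.comp_apply]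
  rw [adj_coord, adj_coord]
  split_ifs with hi
  · rw [place_apply, place_apply, map_sum, map_sum]
    simp only [map_smul]
    rw [lp.coeFn_sum, lp.coeFn_sum, Finset.sum_apply, Finset.sum_apply]
    refine Finset.sum_congr rfl fun q _ => ?_
    rw [lp.coeFn_smul, lp.coeFn_smul, Pi.smul_apply, Pi.smul_apply]
    congr 1
    have h1 := hcov T m y (0 + ((i : ℕ) : ℤ), e) (0 + ((q.1 : ℕ) : ℤ), q.2)
    unfold entry at h1
    rw [h1]
    simp only
    have e1 : (0 + ((i : ℕ) : ℤ) + m) = m + ((i : ℕ) : ℤ) := by ring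
    have e2 : (0 + ((q.1 : ℕ) : ℤ) + m) = m + ((q.1 : ℕ) : ℤ) := by ring
    rw [e1, e2]
  · rfl

/-- a band element maps the inner part of a window into the window -/
theorem band_window (M : Model h n 𝒜) {b₁ : 𝒜} {M₀ : ℕ} (hb : BandLE M b₁ M₀) (m : ℤ) (y : X)
    (w : EE ℓ n) (q : ℤ × Fin n) (hq : ¬ (m ≤ q.1 ∧ q.1 < m + (ℓ : ℤ))) :
    (M.fib y b₁ (place M₀ m w)) q = 0 := by
  obtain ⟨c, _, hc⟩ := hb
  rw [place_apply, map_sum, lp.coeFn_sum, Finset.sum_apply]
  refine Finset.sum_eq_zero fun p hp => ?_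
  rw [Finset.mem_filter] at hp
  rw [map_smul, lp.coeFn_smul, Pi.smul_apply]
  have h1 := hc y q (m + ((p.1 : ℕ) : ℤ), p.2)
  unfold entry at h1
  rw [h1, if_neg, smul_zero]
  simp only
  intro h2
  rw [abs_le] at h2
  apply hq
  omega

omit [TopologicalSpace X] in
theorem continuous_of_entries [TopologicalSpace X] {J : Type} [Fintype J] [DecidableEq J]
    {V : X → (EuclideanSpace ℂ J →L[ℂ] EuclideanSpace ℂ J)}
    (H : ∀ p q, Continuous fun x => (V x (EuclideanSpace.single q (1 : ℂ))) p) :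
    Continuous V := by
  have h1 : V = fun x => ∑ p : J, ∑ q : J, ((V x (EuclideanSpace.single q (1 : ℂ))) p) •
      ((EuclideanSpace.proj q : EuclideanSpace ℂ J →L[ℂ] ℂ).smulRight
        (EuclideanSpace.single p (1 : ℂ) : EuclideanSpace ℂ J)) := by
    funext x
    apply ContinuousLinearMap.coe_injective
    refine (EuclideanSpace.basisFun J ℂ).toBasis.ext fun j => ?_
    simp only [OrthonormalBasis.coe_toBasis, EuclideanSpace.basisFun_apply,
      ContinuousLinearMap.coe_coe]
    ext i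
    simp [PiLp.single_apply, sum_apply, Pi.single_apply]
  rw [h1]
  exact continuous_finsetSum _ fun p _ => continuous_finsetSum _ fun q _ =>
    (H p q).smul continuous_const

theorem blk (hMB : MBStmt) : BLKStmt := by
  intro X _ _ h n 𝒜 _ _ _ M ℓ β hβc hβ
  obtain ⟨hpos, -, hcov, hcont, -, -⟩ := hMB X h n 𝒜 M
  have hadd : ∀ V W : X → (EE ℓ n →L[ℂ] EE ℓ n), Adm β V → Adm β W →
      Adm β (fun x => V x + W x) := fun V W hV hW =>
    ⟨hV.1.add hW.1, fun x hx => by simp only [hV.2 x hx, hW.2 x hx, add_zero]⟩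
  have hsmul : ∀ (c : ℝ) (V : X → (EE ℓ n →L[ℂ] EE ℓ n)), Adm β V →
      Adm β (fun x => c • V x) := fun c V hV =>
    ⟨hV.1.const_smul c, fun x hx => by
      show c • V x = 0
      rw [hV.2 x hx]
      ext v p
      simp⟩
  have hmul : ∀ V W : X → (EE ℓ n →L[ℂ] EE ℓ n), Adm β V → Continuous W →
      Adm β (fun x => V x * W x) := fun V W hV hW =>
    ⟨hV.1.mul hW, fun x hx => by simp only [hV.2 x hx, zero_mul]⟩
  have hstar : ∀ V : X → (EE ℓ n →L[ℂ] EE ℓ n), Adm β V →
      Adm β (fun x => star (V x)) := fun V hV =>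
    ⟨ContinuousLinearMap.adjoint.continuous.comp hV.1, fun x hx => by
      show ContinuousLinearMap.adjoint (V x) = 0
      rw [hV.2 x hx, map_zero]⟩
  refine ⟨TB M ℓ, ?_, ?_, ?_, ?_, ?_, ?_, ?_, ?_⟩
  · intro V W hV hW
    refine eq_of_fib M fun y => ?_
    rw [map_add]
    exact (blk_TB M hβ (hadd V W hV hW) y).unique ((blk_TB M hβ hV y).add (blk_TB M hβ hW y))
      fun _ _ => rfl
  · intro c V hV
    refine eq_of_fib M fun y => ?_
    rw [fib_smul]
    exact (blk_TB M hβ (hsmul c V hV) y).unique ((blk_TB M hβ hV y).smul c) fun _ _ => rfl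
  · intro V W hV hW
    refine eq_of_fib M fun y => ?_
    rw [map_mul]
    exact (blk_TB M hβ (hmul V W hV hW.1) y).unique
      ((blk_TB M hβ hV y).mul (blk_TB M hβ hW y)) fun _ _ => rfl
  · intro V hV
    refine eq_of_fib M fun y => ?_
    rw [map_star]
    exact (blk_TB M hβ (hstar V hV) y).unique
      ((blk_TB M hβ hV y).star (sep_act hβ y)) fun _ _ => rfl
  · -- order
    intro V hV C hC hVC
    rw [← sub_nonneg]
    apply hpos
    intro y
    rw [map_sub, fib_smul, map_one, ContinuousLinearMap.nonneg_iff_isPositive,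
      ContinuousLinearMap.isPositive_iff_complex]
    have hB := blk_TB M hβ hV y
    have hS := sep_act hβ y
    have key : ∀ ξ : Hil n, 0 ≤ ⟪ξ, (C • (1 : Hil n →L[ℂ] Hil n) - M.fib y (TB M ℓ V)) ξ⟫_ℂ := by
      intro ξ
      have hlim : Tendsto (fun A : Finset (ℤ × Fin n) => ⟪trunc A ξ,
          (C • (1 : Hil n →L[ℂ] Hil n) - M.fib y (TB M ℓ V)) (trunc A ξ)⟫_ℂ) atTop
          (𝓝 ⟪ξ, (C • (1 : Hil n →L[ℂ] Hil n) - M.fib y (TB M ℓ V)) ξ⟫_ℂ) :=
        (tendsto_trunc ξ).inner (((ContinuousLinearMap.continuous _).tendsto ξ).comp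
          (tendsto_trunc ξ))
      refine ge_of_tendsto' hlim fun A => ?_
      set g := trunc A ξ with hg
      have h1 : ⟪g, (C • (1 : Hil n →L[ℂ] Hil n) - M.fib y (TB M ℓ V)) g⟫_ℂ =
          ((C * ‖g‖ ^ 2 : ℝ) : ℂ) - ⟪g, M.fib y (TB M ℓ V) g⟫_ℂ := by
        rw [sub_apply, inner_sub_right]
        congr 1
        have h2 : (C • (1 : Hil n →L[ℂ] Hil n)) g = (C : ℂ) • g := rfl
        rw [h2, inner_smul_right, inner_self_eq_norm_sq_to_K]
        push_cast
        rfl
      rw [h1, sub_nonneg]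
      conv_lhs => rw [hg]
      rw [hB.inner_expand hS]
      have h3 : ∀ m ∈ actFin (act h β y) ℓ A,
          ⟪ContinuousLinearMap.adjoint (place 0 m) (trunc A ξ), V ((h ^ m) y)
            (ContinuousLinearMap.adjoint (place 0 m) (trunc A ξ))⟫_ℂ ≤
          ((C * ‖ContinuousLinearMap.adjoint (place (ℓ := ℓ) 0 m) (trunc A ξ)‖ ^ 2 : ℝ) : ℂ) := by
        intro m _
        set v := ContinuousLinearMap.adjoint (place (ℓ := ℓ) 0 m) (trunc A ξ) with hv
        have h4 := (ContinuousLinearMap.le_def _ _).1 (hVC ((h ^ m) y))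
        have h5 := h4.inner_nonneg_right v
        rw [sub_apply, inner_sub_right, sub_nonneg] at h5
        refine h5.trans (le_of_eq ?_)
        have h2 : (C • (1 : EE ℓ n →L[ℂ] EE ℓ n)) v = (C : ℂ) • v := rfl
        rw [h2, inner_smul_right, inner_self_eq_norm_sq_to_K]
        push_cast
        rfl
      refine (Finset.sum_le_sum h3).trans ?_
      rw [← Complex.ofReal_sum, ← Finset.mul_sum]
      apply Complex.real_le_real.2
      exact mul_le_mul_of_nonneg_left
        (bessel hS _ (fun m hm => actFin_sub hm) (trunc A ξ)) hC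
    intro ξ
    have h1 := key ξ
    rw [← inner_conj_symm] at h1
    have h2 := Complex.nonneg_iff.1 h1
    have h3 : (⟪(C • (1 : Hil n →L[ℂ] Hil n) - M.fib y (TB M ℓ V)) ξ, ξ⟫_ℂ).im = 0 := by
      have := h2.2
      rw [Complex.conj_im] at this
      linarith
    have h4 : 0 ≤ (⟪(C • (1 : Hil n →L[ℂ] Hil n) - M.fib y (TB M ℓ V)) ξ, ξ⟫_ℂ).re := by
      have := h2.1
      rw [Complex.conj_re] at this
      exact this
    refine ⟨?_, h4⟩
    apply Complex.ext
    · exact Complex.ofReal_re _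
    · exact (Complex.ofReal_im _).trans h3.symm
  · -- compression of band elements
    intro b₁ M₀ hb V W hV hW hVl hWl
    refine eq_of_fib M fun y => ?_
    rw [map_mul, map_mul]
    have hcw : Continuous fun x => win ℓ M₀ (M.fib x b₁) := by
      refine continuous_of_entries fun p q => ?_
      obtain ⟨i, e⟩ := p
      obtain ⟨j, f⟩ := q
      unfold win
      simp only [ContinuousLinearMap.comp_apply]
      simp only [adj_coord]
      split_ifs with hi
      · have h1 : place M₀ 0 (EuclideanSpace.single (j, f) (1 : ℂ)) =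
            if M₀ ≤ (j : ℕ) ∧ (j : ℕ) + M₀ < ℓ then (del (0 + ((j : ℕ) : ℤ), f) : Hil n)
            else 0 := by
          rw [place_apply, Finset.sum_filter]
          rw [Finset.sum_eq_single (j, f)]
          · simp
          · intro p _ hp
            rw [PiLp.single_apply, if_neg hp, zero_smul, ite_self]
          · intro hp
            exact absurd (Finset.mem_univ _) hp
        rw [h1]
        split_ifs with hj
        · exact hcont b₁ _ _
        · simp only [map_zero]
          exact continuous_const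
      · exact continuous_const
    have hA : Adm β (fun x => V x * win ℓ M₀ (M.fib x b₁) * W x) :=
      hmul _ _ (hmul _ _ hV hcw) hW.1
    have hBV := blk_TB M hβ hV y
    have hBW := blk_TB M hβ hW y
    have hC : Blk (act h β y) (M.fib y (TB M ℓ V) * M.fib y b₁ * M.fib y (TB M ℓ W))
        (fun m => V ((h ^ m) y) * win ℓ M₀ (M.fib ((h ^ m) y) b₁) * W ((h ^ m) y)) := by
      refine ⟨fun m hm u => ?_, fun q H => ?_⟩
      · simp only [mul_apply_eq_comp]
        rw [hBW.on m hm]
        have e1 : W ((h ^ m) y) u = lev ℓ n M₀ (W ((h ^ m) y) u) := by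
          conv_lhs => rw [← hWl]
          rfl
        rw [e1, place_lev]
        set z := M.fib y b₁ (place M₀ m (W ((h ^ m) y) u)) with hz
        have e2 : place 0 m (ContinuousLinearMap.adjoint (place (ℓ := ℓ) 0 m) z) = z :=
          place_adj fun q hq => band_window M hb m y _ q hq
        rw [← e2, hBV.on m hm]
        congr 1
        conv_lhs => rw [← hVl]
        rw [mul_apply_eq_comp, lev_adj, hz, win_cov M hcov, ← e1]
      · simp only [mul_apply_eq_comp]
        rw [hBW.off q H, map_zero, map_zero]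
    exact hC.unique (blk_TB M hβ hA y) fun _ _ => rfl
  · -- positivity
    intro F₁₁ F₁₂ F₂₁ F₂₂ t h11 h12 h21 h22 hF
    apply hpos
    intro y
    have hS := sep_act hβ y
    have hB11 := blk_TB M hβ h11 y
    have hB12 := blk_TB M hβ h12 y
    have hB21 := blk_TB M hβ h21 y
    have hB22 := blk_TB M hβ h22 y
    rw [ContinuousLinearMap.nonneg_iff_isPositive, ContinuousLinearMap.isPositive_iff_complex]
    simp only [map_add, map_mul, map_star]
    set S11 := M.fib y (TB M ℓ F₁₁)
    set S12 := M.fib y (TB M ℓ F₁₂)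
    set S21 := M.fib y (TB M ℓ F₂₁)
    set S22 := M.fib y (TB M ℓ F₂₂)
    set t' := M.fib y t
    have key : ∀ ξ η : Hil n, 0 ≤ ⟪ξ, S11 ξ⟫_ℂ + ⟪ξ, S12 η⟫_ℂ + ⟪η, S21 ξ⟫_ℂ + ⟪η, S22 η⟫_ℂ := by
      intro ξ η
      have hl : ∀ (S : Hil n →L[ℂ] Hil n) (f g : Hil n), Tendsto (fun A : Finset (ℤ × Fin n) =>
          ⟪trunc A f, S (trunc A g)⟫_ℂ) atTop (𝓝 ⟪f, S g⟫_ℂ) := fun S f g =>
        (tendsto_trunc f).inner ((S.continuous.tendsto g).comp (tendsto_trunc g))
      refine ge_of_tendsto' ((((hl S11 ξ ξ).add (hl S12 ξ η)).add (hl S21 η ξ)).add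
        (hl S22 η η)) fun A => ?_
      rw [hB11.inner_expand hS, hB12.inner_expand hS, hB21.inner_expand hS,
        hB22.inner_expand hS, ← Finset.sum_add_distrib, ← Finset.sum_add_distrib,
        ← Finset.sum_add_distrib]
      exact Finset.sum_nonneg fun m _ => hF _ _ _
    intro ξ
    set R := S11 + S12 * t' + star t' * S21 + star t' * S22 * t' with hR
    have h1 : 0 ≤ ⟪ξ, R ξ⟫_ℂ := by
      have h2 : ⟪ξ, R ξ⟫_ℂ =
          ⟪ξ, S11 ξ⟫_ℂ + ⟪ξ, S12 (t' ξ)⟫_ℂ + ⟪t' ξ, S21 ξ⟫_ℂ + ⟪t' ξ, S22 (t' ξ)⟫_ℂ := by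
        rw [hR]
        simp only [add_apply, mul_apply_eq_comp, inner_add_right,
          ContinuousLinearMap.star_eq_adjoint, ContinuousLinearMap.adjoint_inner_right]
      rw [h2]
      exact key ξ (t' ξ)
    rw [← inner_conj_symm] at h1
    have h2 := Complex.nonneg_iff.1 h1
    have h3 : (⟪R ξ, ξ⟫_ℂ).im = 0 := by
      have := h2.2
      rw [Complex.conj_im] at this
      linarith
    have h4 : 0 ≤ (⟪R ξ, ξ⟫_ℂ).re := by
      have := h2.1
      rw [Complex.conj_re] at this
      exact this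
    refine ⟨?_, h4⟩
    apply Complex.ext
    · exact Complex.ofReal_re _
    · exact (Complex.ofReal_im _).trans h3.symm
  · -- diagonal
    intro φ hφ hφ0 V hVφ
    have hA : Adm β V := by
      refine ⟨?_, fun x hx => ?_⟩
      · refine continuous_of_entries fun p q => ?_
        simp only [hVφ]
        have h1 : Continuous fun x => φ x p.1 p.2 :=
          (continuous_apply p.2).comp ((continuous_apply p.1).comp hφ)
        exact (Complex.continuous_ofReal.comp h1).mul continuous_const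
      · ext v p
        rw [hVφ, hφ0 x hx]
        simp
    refine ⟨hA, fun y p q => ?_⟩
    rw [TB_entry M hA.1]
    simp only [hVφ, PiLp.single_apply]
    by_cases hpq : p = q
    · subst hpq
      rw [if_pos rfl]
      push_cast
      refine Finset.sum_congr rfl fun i _ => ?_
      rw [Finset.sum_eq_single i]
      · rw [if_pos (by simp), if_pos rfl, mul_one, zpow_app, neg_add_eq_sub]
      · intro j _ hj
        rw [if_neg]
        intro h1
        apply hj
        apply Fin.ext
        omega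
      · intro h1
        exact absurd (Finset.mem_univ _) h1
    · rw [if_neg hpq]
      refine Finset.sum_eq_zero fun i _ => Finset.sum_eq_zero fun j _ => ?_
      split_ifs with h1 h2
      · exfalso
        apply hpq
        rw [Prod.mk.injEq] at h2
        apply Prod.ext
        · rw [h2.1] at h1
          omega
        · exact h2.2
      · simp
      · rfl

end main

end Pool.Agent.H30.RC
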